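import Pool.Agent.Run7.h475.NP.Cor2

set_option autoImplicit false

/-!
# The uniform Anderson model at all disorders with a change of the kinetic energy small in `L^p`

`-Δ + ω` on `ℤ^d`, `d ≥ 2`, `ω_j` independent and uniform on `[-c, c]`. Fix any bound `c₀` for the
disorder (no matter how large), any interval of energies `(a₁, a₂)`, `1 < p < 2`, `g < d / 3` and
`ε > 0`. There is ONE bounded continuous `f` for which `f(-Δ)` is at most `ε` in `L^p` of the
Brillouin zone and has hopping amplitudes at most `ε / (1 + |x|)^g`, such that for EVERY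
`c ∈ (0, c₀]` the operator `-Δ + f(-Δ) + ω` has almost surely purely absolutely continuous
spectrum in `(a₁, a₂)`, filling this interval. In particular this holds at disorders for which
`-Δ + ω` itself is localized, and also arbitrarily close to the free operator.
-/

namespace Pool.Agent.Results.MP_562b47_mp.AllDisordersSmallChangeAC

open MeasureTheory
open scoped ENNReal

noncomputable section

/-- The symbol `∑ i (2 - 2 cos (2 π k_i))` of `-Δ` on the Brillouin zone. -/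
def sym (d : ℕ) (k : UnitAddTorus (Fin d)) : ℝ := ∑ i, (2 - 2 * (fourier 1 (k i)).re)

/-- The hopping amplitudes of `f(-Δ)` on `ℤ^d`. -/
def hopping (f : ℝ → ℝ) (d : ℕ) (x : Fin d → ℤ) : ℂ :=
  UnitAddTorus.mFourierCoeff (fun k : UnitAddTorus (Fin d) => ((f (sym d k) : ℝ) : ℂ)) x

/-- `(-Δ + f(-Δ) + ω) u (x)`. -/
def H (f : ℝ → ℝ) {d : ℕ} (ω : (Fin d → ℤ) → ℝ) (u : (Fin d → ℤ) → ℂ)
    (x : Fin d → ℤ) : ℂ :=
  (∑ i : Fin d, (2 * u x - u (x + Pi.single i 1) - u (x - Pi.single i 1)))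
    + (∑' y, hopping f d (x - y) * u y) + ((ω x : ℝ) : ℂ) * u x

/-- `u` is square summable and `(H - z) u = δ_x`, i.e. `u = (H - z)⁻¹ δ_x`. -/
def IsGreen (f : ℝ → ℝ) {d : ℕ} (ω : (Fin d → ℤ) → ℝ) (z : ℂ) (x : Fin d → ℤ)
    (u : (Fin d → ℤ) → ℂ) : Prop :=
  Summable (fun y => ‖u y‖ ^ 2) ∧ ∀ y, H f ω u y - z * u y = if y = x then 1 else 0

/-- Purely absolutely continuous spectrum filling the interval `(a₁, a₂)`: for every site `x` the
spectral measure `μ` of `δ_x`, i.e. the finite measure with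
`⟨δ_x, (H - z)⁻¹ δ_x⟩ = ∫ dμ(E) / (E - z)`, has on `(a₁, a₂)` a density `h`, positive almost
everywhere there. -/
def ACOn (f : ℝ → ℝ) {d : ℕ} (ω : (Fin d → ℤ) → ℝ) (a₁ a₂ : ℝ) : Prop :=
  ∀ x : Fin d → ℤ, ∃ (μ : Measure ℝ) (h : ℝ → ℝ), IsFiniteMeasure μ ∧
    (∀ z : ℂ, 0 < z.im → (∃ u, IsGreen f ω z x u) ∧
      ∀ u, IsGreen f ω z x u → u x = ∫ E : ℝ, 1 / ((E : ℂ) - z) ∂μ) ∧
    Measurable h ∧ (∀ᵐ E ∂(volume.restrict (Set.Ioo a₁ a₂)), 0 < h E) ∧
    μ.restrict (Set.Ioo a₁ a₂)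
      = (volume.restrict (Set.Ioo a₁ a₂)).withDensity fun E => ENNReal.ofReal (h E)

/-- The uniform law on `[-c, c]`. -/
def unifLaw (c : ℝ) : Measure ℝ :=
  ENNReal.ofReal (1 / (2 * c)) • volume.restrict (Set.Icc (-c) c)

theorem ac_of {f : C(ℝ, ℝ)} {d : ℕ} {lam : ℝ} {v : (Fin d → ℤ) → ℝ} {a₁ a₂ : ℝ}
    (h : W792.WA.ACIK (W792.LL.lap d + W792.WA.gK f d) 1 (fun x => lam * v x) a₁ a₂) :
    ACOn f (fun x => lam * v x) a₁ a₂ := by
  intro x
  obtain ⟨μ, g, h1, h2, h3, h4, h5⟩ := h x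
  refine ⟨μ, g, h1, fun z hz => ?_, h3, h4, h5⟩
  obtain ⟨⟨w, hw⟩, h6⟩ := h2 z hz
  exact ⟨⟨w, (_root_.Run7.h475.NP.Cor.sol_iff' f lam v z x w).1 hw⟩,
    fun u hu => h6 u ((_root_.Run7.h475.NP.Cor.sol_iff' f lam v z x u).2 hu)⟩

theorem unif_prob {c : ℝ} (hc : 0 < c) : IsProbabilityMeasure (unifLaw c) := by
  refine ⟨?_⟩
  unfold unifLaw
  rw [Measure.smul_apply, Measure.restrict_apply_univ, Real.volume_Icc, smul_eq_mul,
    ← ENNReal.ofReal_mul (by positivity)]
  have : 1 / (2 * c) * (c - -c) = 1 := by field_simp; ring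
  rw [this, ENNReal.ofReal_one]

theorem unif_map {c : ℝ} (hc : 0 < c) : (unifLaw 1).map (fun x => c * x) = unifLaw c := by
  have hm : Measurable fun x : ℝ => c * x := measurable_const.mul measurable_id
  ext s hs
  unfold unifLaw
  rw [Measure.map_apply hm hs, Measure.smul_apply, Measure.smul_apply,
    Measure.restrict_apply (hm hs), Measure.restrict_apply hs]
  have e : (fun x : ℝ => c * x) ⁻¹' s ∩ Set.Icc (-1) 1 =
      (fun x : ℝ => c * x) ⁻¹' (s ∩ Set.Icc (-c) c) := by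
    ext x
    simp only [Set.mem_inter_iff, Set.mem_preimage, Set.mem_Icc]
    refine and_congr_right fun _ => ⟨fun h => ⟨by nlinarith [h.1], by nlinarith [h.2]⟩,
      fun h => ⟨?_, ?_⟩⟩
    · have := h.1
      by_contra hx
      push Not at hx
      nlinarith
    · have := h.2
      by_contra hx
      push Not at hx
      nlinarith
  rw [e, Real.volume_preimage_mul_left hc.ne', smul_eq_mul, smul_eq_mul, ← mul_assoc,
    ← ENNReal.ofReal_mul (by norm_num), abs_of_pos (by positivity)]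
  congr 2
  field_simp

/-- Let `d ≥ 2`, `c₀ > 0`, let `(a₁, a₂)` be an interval of energies, `1 < p < 2`, `0 ≤ g < d / 3`
and `ε > 0`. There is a bounded continuous `f`, small in the sense that
`∫ |f(∑ i (2 - 2 cos (2 π k_i)))|^p dk ≤ ε` and that all hopping amplitudes of `f(-Δ)` are at most
`ε / (1 + |x|)^g`, such that for every `c ∈ (0, c₀]`: for almost every `ω`, `ω_j` independent and
uniform on `[-c, c]`, the spectrum of `-Δ + f(-Δ) + ω` in `(a₁, a₂)` is purely absolutely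
continuous, and it fills this interval. -/
theorem result (d : ℕ) (hd : 2 ≤ d) (a₁ a₂ c₀ p g ε : ℝ) (ha : a₁ < a₂)
    (hp : 1 < p) (hp2 : p < 2) (hg : 0 ≤ g) (hg2 : g < (d : ℝ) / 3) (hε : 0 < ε) :
    ∃ f : ℝ → ℝ, Continuous f ∧ (∃ B : ℝ, ∀ t, |f t| ≤ B) ∧
      (∫ k : UnitAddTorus (Fin d), |f (sym d k)| ^ p ≤ ε) ∧
      (∀ x : Fin d → ℤ, ‖hopping f d x‖ ≤ ε / (1 + ‖x‖) ^ g) ∧
      ∀ c : ℝ, 0 < c → c ≤ c₀ →
        ∀ᵐ ω ∂(Measure.infinitePi fun _ : Fin d → ℤ => unifLaw c), ACOn f ω a₁ a₂ := by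
  have hP := unif_prob one_pos
  have h2 : ∀ a : ℝ, unifLaw 1 {a} < 1 := by
    intro a
    have : unifLaw 1 {a} = 0 := by
      unfold unifLaw
      rw [Measure.smul_apply, Measure.restrict_apply (measurableSet_singleton a)]
      have h3 : volume ({a} ∩ Set.Icc (-1 : ℝ) 1) = 0 :=
        measure_mono_null Set.inter_subset_left (by simp)
      rw [h3, smul_zero]
    rw [this]
    exact one_pos
  have hd0 : 0 < d := by omega
  have h3 : ∀ᵐ x ∂(unifLaw 1), |x| ≤ 1 := by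
    unfold unifLaw
    refine (Measure.ae_smul_measure_le _) ?_
    filter_upwards [ae_restrict_mem measurableSet_Icc] with x hx
    exact abs_le.2 ⟨hx.1, hx.2⟩
  obtain ⟨f, b1, b2, b3, b4⟩ := _root_.Run7.h475.NP.Cor2.one_law (unifLaw 1) h2 one_pos h3 d hd0
    (W792.LL.lap d) a₁ a₂ p g c₀ ε ha hp hp2 hg hg2 hε
  refine ⟨f, f.continuous, b1, b2, b3, fun c hc0 h4 => ?_⟩
  have hm : Measurable fun x : ℝ => c * x := measurable_const.mul measurable_id
  have hPc := unif_prob hc0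
  have e : (Measure.infinitePi fun _ : Fin d → ℤ => unifLaw 1).map
      (fun (v : (Fin d → ℤ) → ℝ) x => c * v x) =
      Measure.infinitePi fun _ : Fin d → ℤ => unifLaw c := by
    have h5 := Measure.infinitePi_map_pi (μ := fun _ : Fin d → ℤ => unifLaw 1)
      (f := fun _ => fun x : ℝ => c * x) fun _ => hm
    rw [h5]
    congr 1
    funext _
    exact unif_map hc0
  have hmm : MeasurableEmbedding fun (v : (Fin d → ℤ) → ℝ) (x : Fin d → ℤ) => c * v x := by
    have h6 : (fun (v : (Fin d → ℤ) → ℝ) (x : Fin d → ℤ) => c * v x) =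
        MeasurableEquiv.piCongrRight (fun _ : Fin d → ℤ =>
          (Homeomorph.mulLeft₀ c hc0.ne').toMeasurableEquiv) := rfl
    rw [h6]
    exact MeasurableEquiv.measurableEmbedding _
  rw [← e, hmm.ae_map_iff]
  have b5 := b4 c hc0 h4
  change ∀ᵐ v ∂(Measure.infinitePi fun _ : Fin d → ℤ => unifLaw 1), _ at b5
  filter_upwards [b5] with v hv
  exact ac_of hv

end

end Pool.Agent.Results.MP_562b47_mp.AllDisordersSmallChangeAC
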