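import Pool.Agent.Run7.h442.B2.All

set_option autoImplicit false

/-!
# Dimension two: a change of the kinetic energy below the kinetic scale gives absolutely continuous
spectrum

The uniform Anderson model `Δ_ω = -Δ + ω` on `ℤ²`, `ω_j` iid uniform on `[-c, c]`. For every compact
interval `[a₁, a₂]` of bulk energies (inside `(0, 4)` or inside `(4, 8)`) and every `κ < 1 / 24`: for
all small `c > 0` there is a continuous function `b` with `|b| ≤ c ^ (2 + κ)` and hopping amplitudes at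
most `C c ^ (2 + κ) / (1 + |x|) ^ (2 / 3)` such that `Δ_ω + b(-Δ)` has almost surely purely absolutely
continuous spectrum filling `(a₁, a₂)`. The same for every other bounded law of the disorder. The
change `b(-Δ)` is by a power of `c` smaller than the kinetic scale `c²` (the inverse mean free time of
`Δ_ω`).
-/

namespace Pool.Agent.Results.MP_562b47_mp.BelowKineticScaleAC2D

open MeasureTheory
open scoped ENNReal

noncomputable section

/-- The hopping amplitudes of `b(-Δ)` on `ℤ²`: the Fourier coefficients of the symbol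
`b(∑ i (2 - 2 cos (2 π k_i)))`. -/
def hopping (b : ℝ → ℝ) (x : Fin 2 → ℤ) : ℂ :=
  UnitAddTorus.mFourierCoeff
    (fun k : UnitAddTorus (Fin 2) => ((b (∑ i, (2 - 2 * (fourier 1 (k i)).re)) : ℝ) : ℂ)) x

/-- `(Δ_ω + b(-Δ)) u (x)`, where `(Δ_ω u)(x) = -∑_{|n| = 1} (u(x + n) - u(x)) + ω_x u(x)`. -/
def H (b : ℝ → ℝ) (ω : (Fin 2 → ℤ) → ℝ) (u : (Fin 2 → ℤ) → ℂ) (x : Fin 2 → ℤ) : ℂ :=
  -(∑ i : Fin 2, ((u (x + Pi.single i 1) - u x) + (u (x - Pi.single i 1) - u x)))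
    + ((ω x : ℝ) : ℂ) * u x + ∑' y, hopping b (x - y) * u y

/-- `u` is square summable and `(H - z) u = δ_x`, i.e. `u = (H - z)⁻¹ δ_x`. -/
def IsGreen (b : ℝ → ℝ) (ω : (Fin 2 → ℤ) → ℝ) (z : ℂ) (x : Fin 2 → ℤ)
    (u : (Fin 2 → ℤ) → ℂ) : Prop :=
  Summable (fun y => ‖u y‖ ^ 2) ∧ ∀ y, H b ω u y - z * u y = if y = x then 1 else 0

/-- Purely absolutely continuous spectrum filling the interval `(a₁, a₂)`: for every site `x` the
spectral measure `μ` of `δ_x`, i.e. the finite measure with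
`⟨δ_x, (H - z)⁻¹ δ_x⟩ = ∫ dμ(E) / (E - z)`, has on `(a₁, a₂)` a density `h`, positive almost
everywhere there. -/
def ACOn (b : ℝ → ℝ) (ω : (Fin 2 → ℤ) → ℝ) (a₁ a₂ : ℝ) : Prop :=
  ∀ x : Fin 2 → ℤ, ∃ (μ : Measure ℝ) (h : ℝ → ℝ), IsFiniteMeasure μ ∧
    (∀ z : ℂ, 0 < z.im → (∃ u, IsGreen b ω z x u) ∧
      ∀ u, IsGreen b ω z x u → u x = ∫ E : ℝ, 1 / ((E : ℂ) - z) ∂μ) ∧
    Measurable h ∧ (∀ᵐ E ∂(volume.restrict (Set.Ioo a₁ a₂)), 0 < h E) ∧
    μ.restrict (Set.Ioo a₁ a₂)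
      = (volume.restrict (Set.Ioo a₁ a₂)).withDensity fun E => ENNReal.ofReal (h E)

/-- The potential `ω` being iid with law `μ`, there is a continuous function `b` with `|b| ≤ ε` and
hopping amplitudes at most `C ε / (1 + |x|) ^ (2 / 3)`, `|x| = max |x_i|`, for which the spectrum of
`Δ_ω + b(-Δ)` in `(a₁, a₂)` is almost surely purely absolutely continuous and fills this interval. -/
def SmallChangeAC (C a₁ a₂ ε : ℝ) (μ : Measure ℝ) : Prop :=
  ∃ b : ℝ → ℝ, Continuous b ∧ (∀ t, |b t| ≤ ε) ∧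
    (∀ x : Fin 2 → ℤ, ‖hopping b x‖ ≤ C * ε / (1 + ‖x‖) ^ ((2 : ℝ) / 3)) ∧
    ∀ᵐ ω ∂(Measure.infinitePi fun _ : Fin 2 → ℤ => μ), ACOn b ω a₁ a₂

/-- The uniform law on `[-c, c]`. -/
def unif (c : ℝ) : Measure ℝ :=
  ENNReal.ofReal (1 / (2 * c)) • volume.restrict (Set.Icc (-c) c)

theorem ac_of {b : ℝ → ℝ} (B : C(UnitAddTorus (Fin 2), ℝ))
    (hB : ∀ k, B k = b (W792.LL.lap 2 k)) {lam : ℝ} {ω v : (Fin 2 → ℤ) → ℝ} {a₁ a₂ : ℝ}
    (hv : ∀ x, ω x = lam * v x)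
    (h : W792.WA.ACIK (W792.LL.lap 2 + B) lam v a₁ a₂) : ACOn b ω a₁ a₂ := by
  intro x
  obtain ⟨μ, g, h1, h2, h3, h4, h5⟩ := h x
  have e0 : (fun k : UnitAddTorus (Fin 2) => ((B k : ℝ) : ℂ))
      = fun k => ((b (∑ i, (2 - 2 * (fourier 1 (k i)).re)) : ℝ) : ℂ) := by
    funext k
    rw [hB]
    rfl
  refine ⟨μ, g, h1, fun z hz => ?_, h3, h4, h5⟩
  have e : ∀ u, W792.LL.Sol (W792.LL.hopK (W792.LL.lap 2 + B)) lam v z x u
      ↔ IsGreen b ω z x u := by
    intro u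
    rw [W792.WA.Br.sol_iff B lam v z x u, e0]
    unfold IsGreen H hopping
    have e1 : ∀ y : Fin 2 → ℤ,
        ∑ i : Fin 2, (2 * u y - u (y + Pi.single i 1) - u (y - Pi.single i 1)) =
        -(∑ i : Fin 2, ((u (y + Pi.single i 1) - u y) + (u (y - Pi.single i 1) - u y))) := by
      intro y
      rw [← Finset.sum_neg_distrib]
      exact Finset.sum_congr rfl fun i _ => by ring
    simp only [e1, hv]
    constructor
    · rintro ⟨k1, k2⟩
      refine ⟨k1, fun y => ?_⟩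
      rw [← k2 y]
      ring
    · rintro ⟨k1, k2⟩
      refine ⟨k1, fun y => ?_⟩
      rw [← k2 y]
      ring
  obtain ⟨⟨w, hw⟩, h6⟩ := h2 z hz
  exact ⟨⟨w, (e w).1 hw⟩, fun u hu => h6 u ((e u).2 hu)⟩

theorem unif_prob {c : ℝ} (hc : 0 < c) : IsProbabilityMeasure (unif c) := by
  refine ⟨?_⟩
  unfold unif
  rw [Measure.smul_apply, Measure.restrict_apply_univ, Real.volume_Icc, smul_eq_mul,
    ← ENNReal.ofReal_mul (by positivity)]
  have : 1 / (2 * c) * (c - -c) = 1 := by field_simp; ring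
  rw [this, ENNReal.ofReal_one]

theorem unif_bdd (c : ℝ) : ∀ᵐ s ∂(unif c), |s| ≤ c := by
  have h : ∀ᵐ s ∂(volume.restrict (Set.Icc (-c) c)), |s| ≤ c := by
    filter_upwards [ae_restrict_mem measurableSet_Icc] with s hs
    exact abs_le.2 hs
  exact Measure.ae_smul_measure h _

theorem unif_atom (c a : ℝ) : unif c {a} < 1 := by
  have : unif c {a} = 0 := by
    unfold unif
    rw [Measure.smul_apply, Measure.restrict_apply (measurableSet_singleton a)]
    have h3 : volume ({a} ∩ Set.Icc (-c) c) = 0 :=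
      measure_mono_null Set.inter_subset_left (by simp)
    rw [h3, smul_zero]
  rw [this]
  exact one_pos

/-- the uniform law on `[-c, c]` is the image of that on `[-1, 1]` -/
theorem unif_scale (c : ℝ) (hc : 0 < c) : (unif c).map (fun s => s / c) = unif 1 := by
  have hm : Measurable fun s : ℝ => s / c := by fun_prop
  unfold unif
  rw [Measure.map_smul]
  have h1 : (volume.restrict (Set.Icc (-c) c)).map (fun s : ℝ => s / c) =
      ENNReal.ofReal c • volume.restrict (Set.Icc (-1) 1) := by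
    have h2 : Set.Icc (-c) c = (fun s : ℝ => s / c) ⁻¹' Set.Icc (-1) 1 := by
      ext s
      simp only [Set.mem_Icc, Set.mem_preimage]
      rw [le_div_iff₀ hc, div_le_iff₀ hc]
      constructor
      · rintro ⟨h3, h4⟩
        constructor <;> linarith
      · rintro ⟨h3, h4⟩
        constructor <;> linarith
    rw [h2, ← Measure.restrict_map hm measurableSet_Icc]
    have h3 : (volume : Measure ℝ).map (fun s : ℝ => s / c) = ENNReal.ofReal c • volume := by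
      have h4 : (fun s : ℝ => s / c) = fun s => c⁻¹ * s := by
        funext s
        rw [div_eq_mul_inv, mul_comm]
      rw [h4, Real.map_volume_mul_left (inv_ne_zero hc.ne'), inv_inv, abs_of_pos hc]
    rw [h3, Measure.restrict_smul]
  rw [h1, smul_smul, ← ENNReal.ofReal_mul (by positivity)]
  congr 2
  field_simp

/-- from the potential `lam v` to the potential `ω` -/
theorem scale (μ ν : Measure ℝ) [IsProbabilityMeasure μ] [IsProbabilityMeasure ν] {lam : ℝ}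
    (hl : 0 < lam) (h : μ.map (fun s => s / lam) = ν) (b : C(ℝ, ℝ)) {a₁ a₂ : ℝ}
    (hb : ∀ᵐ v ∂(Measure.infinitePi fun _ : Fin 2 → ℤ => ν),
      W792.WA.ACIK (W792.LL.lap 2 + W792.WA.gK b 2) lam v a₁ a₂) :
    ∀ᵐ ω ∂(Measure.infinitePi fun _ : Fin 2 → ℤ => μ), ACOn b ω a₁ a₂ := by
  have hm : Measurable fun s : ℝ => s / lam := by fun_prop
  have h5 := (Measure.infinitePi_map_pi (μ := fun _ : Fin 2 → ℤ => μ)
      (f := fun _ => fun s : ℝ => s / lam) (fun _ => hm))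
  rw [h] at h5
  rw [← h5] at hb
  have h6 : Measurable fun (ω : (Fin 2 → ℤ) → ℝ) (x : Fin 2 → ℤ) => ω x / lam :=
    measurable_pi_lambda _ fun x => hm.comp (measurable_pi_apply x)
  filter_upwards [ae_of_ae_map h6.aemeasurable hb] with ω hω
  exact ac_of (W792.WA.gK b 2) (fun k => rfl) (fun x => by field_simp) hω

/-- There is a constant `C` such that for all `a₁ < a₂` with `0 < a₁, a₂ < 4` or `4 < a₁, a₂ < 8` and
all `κ < 1 / 24`: for all small `c > 0` there is a continuous `b` with `|b| ≤ c ^ (2 + κ)` and hopping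
amplitudes at most `C c ^ (2 + κ) / (1 + |x|) ^ (2 / 3)` for which the spectrum of `Δ_ω + b(-Δ)` on
`ℤ²`, `ω` iid uniform on `[-c, c]`, in `(a₁, a₂)` is almost surely purely absolutely continuous, and
fills this interval. The same for `ω = lam v` with iid `v` of any law `ν` of bounded support which is
not a point mass, for all small `lam > 0`, with `|b| ≤ lam ^ (2 + κ)`. -/
theorem result : ∃ C : ℝ, 0 < C ∧ ∀ a₁ a₂ κ : ℝ, a₁ < a₂ →
    ((0 < a₁ ∧ a₂ < 4) ∨ (4 < a₁ ∧ a₂ < 8)) → κ < 1 / 24 →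
    (∃ c₀ : ℝ, 0 < c₀ ∧ ∀ c : ℝ, 0 < c → c ≤ c₀ → SmallChangeAC C a₁ a₂ (c ^ (2 + κ)) (unif c)) ∧
    ∀ (ν : Measure ℝ) [IsProbabilityMeasure ν] (C₀ : ℝ), (∀ᵐ t ∂ν, |t| ≤ C₀) →
      (∀ a : ℝ, ν {a} < 1) → ∃ lam₀ : ℝ, 0 < lam₀ ∧ ∀ lam : ℝ, 0 < lam → lam ≤ lam₀ →
        SmallChangeAC C a₁ a₂ (lam ^ (2 + κ)) (ν.map fun t => lam * t) := by
  obtain ⟨Cd, hCd, hK⟩ := Run7.h442.B2.Al.bkaT2 2 rfl
  have hgen : ∀ a₁ a₂ κ : ℝ, a₁ < a₂ → ((0 < a₁ ∧ a₂ < 4) ∨ (4 < a₁ ∧ a₂ < 8)) → κ < 1 / 24 →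
      ∀ (ν : Measure ℝ) [IsProbabilityMeasure ν] (C₀ : ℝ), (∀ᵐ t ∂ν, |t| ≤ C₀) →
      (∀ a : ℝ, ν {a} < 1) → ∃ lam₀ : ℝ, 0 < lam₀ ∧ ∀ lam : ℝ, 0 < lam → lam ≤ lam₀ →
      ∀ (μ : Measure ℝ) [IsProbabilityMeasure μ], μ.map (fun s => s / lam) = ν →
        SmallChangeAC Cd a₁ a₂ (lam ^ (2 + κ)) μ := by
    intro a₁ a₂ κ h12 hE hκ ν _ C₀ hb hat
    obtain ⟨l, hl, -, h⟩ := hK ν C₀ a₁ a₂ κ hb hat hE h12 hκ
    refine ⟨l, hl, fun lam h0 hle μ _ hμ => ?_⟩
    obtain ⟨b, hb1, hb2, hb3⟩ := h lam h0 hle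
    refine ⟨b, b.continuous, hb1, fun x => ?_, scale μ ν h0 hμ b hb3⟩
    have h2 := hb2 x
    have e2 : (((2 : ℕ) : ℝ) / 3) = (2 : ℝ) / 3 := by norm_num
    rw [e2] at h2
    exact h2
  refine ⟨Cd, hCd, fun a₁ a₂ κ h12 hE hκ => ⟨?_, fun ν _ C₀ hb hat => ?_⟩⟩
  · have hp1 := unif_prob one_pos
    obtain ⟨l, hl, h⟩ := hgen a₁ a₂ κ h12 hE hκ (unif 1) 1 (unif_bdd 1) (unif_atom 1)
    refine ⟨l, hl, fun c hc hcl => ?_⟩
    have hpc := unif_prob hc
    exact h c hc hcl (unif c) (unif_scale c hc)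
  · obtain ⟨l, hl, h⟩ := hgen a₁ a₂ κ h12 hE hκ ν C₀ hb hat
    refine ⟨l, hl, fun lam h0 hle => ?_⟩
    have hm : Measurable fun t : ℝ => lam * t := by fun_prop
    have hm2 : Measurable fun s : ℝ => s / lam := by fun_prop
    have hp : IsProbabilityMeasure (ν.map fun t => lam * t) :=
      Measure.isProbabilityMeasure_map hm.aemeasurable
    refine h lam h0 hle _ ?_
    rw [Measure.map_map hm2 hm]
    have e : ((fun s : ℝ => s / lam) ∘ fun t : ℝ => lam * t) = id := by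
      funext t
      simp only [Function.comp_apply, id_eq]
      field_simp
    rw [e, Measure.map_id]

end

end Pool.Agent.Results.MP_562b47_mp.BelowKineticScaleAC2D
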