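import Pool.Agent.Run7.h108.HD.FinU
import Pool.Agent.Run7.h442.HD.All

set_option autoImplicit false

/-!
# The uniform Anderson model in high dimension at disorder of order one: quantum diffusion

`Δ_ω = -Δ + ω` on `ℓ²(ℤ^d)`, `d` large, `ω_j` i.i.d. uniform on `[-c, c]`, `1 / K ≤ c ≤ K`. For all
energies `|E - 2 d| ≤ A √d` and all spectral widths `t` with `d^(-1/2-1/200) ≤ t ≤ w / √d` the density
`x ↦ |(Δ_ω - E - i t)⁻¹(0, x)|²` is, in mean square over the disorder, the diffusive one. Here `-Δ`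
has spectrum `[0, 4 d]`, its spectral measure at a site is centred at `2 d` and has width of the order
`√d`, and the mean free time is of the order `√d`.
-/

namespace Pool.Agent.Results.MP_562b47_mp.QuantumDiffusionHighDim

open MeasureTheory ProbabilityTheory

noncomputable section

/-- `u` is square summable and `(Δ_ω - z) u = δ_0`, i.e. `u = (Δ_ω - z)⁻¹ δ_0`, where
`(Δ_ω u)(x) = -∑_{|n| = 1} (u(x + n) - u(x)) + ω_x u(x)` on `ℤ^d`. -/
def IsGreen {d : ℕ} (z : ℂ) (ω : (Fin d → ℤ) → ℝ) (u : (Fin d → ℤ) → ℂ) : Prop :=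
  (Summable fun x => ‖u x‖ ^ 2) ∧
  ∀ x, -(∑ i : Fin d, ((u (x + Pi.single i 1) - u x) + (u (x - Pi.single i 1) - u x))) +
    ((ω x : ℝ) : ℂ) * u x - z * u x = if x = 0 then 1 else 0

/-- The Fourier transform `∑_x exp (i p·x) |u x|²` of the density of `u`. -/
def dens {d : ℕ} (u : (Fin d → ℤ) → ℂ) (p : Fin d → ℝ) : ℂ :=
  ∑' x : Fin d → ℤ, Complex.exp (Complex.I * ((∑ i, p i * x i : ℝ) : ℂ)) * ((‖u x‖ ^ 2 : ℝ) : ℂ)

/-- `(√π / 2) exp (-(E - 2 d)² / (4 d))`: asymptotically `π √d` times the density of states of `-Δ`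
at the energy `E`. -/
def gau (d : ℕ) (E : ℝ) : ℝ := Real.sqrt Real.pi / 2 * Real.exp (-((E - 2 * d) ^ 2 / (4 * d)))

/-- The uniform law on `[-c, c]`. -/
def unif (c : ℝ) : Measure ℝ :=
  ENNReal.ofReal (1 / (2 * c)) • volume.restrict (Set.Icc (-c) c)

/-- `ω` being i.i.d. uniform on `[-c, c]` (variance `c² / 3`): for all `P` with `∑ |P_i| ≤ M` and
`G = (Δ_ω - E - i t)⁻¹ δ_0`,
`𝔼 |√d t ∑_x exp (i c √(t / (3 √d)) P·x) |G(x)|² - g / (1 + |P|² / (2 g))|² ≤ ε`, `g = gau d E`.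
With `p = c √(t / (3 √d)) P` and `D = 3 √d / (g c²)` the limit is `g · 2 t / (2 t + D |p|²)`. -/
def Diffusive (d : ℕ) (c E t M ε : ℝ) : Prop :=
  ∀ P : Fin d → ℝ, ∑ i, |P i| ≤ M → ∀ G : ((Fin d → ℤ) → ℝ) → (Fin d → ℤ) → ℂ,
    (∀ ω, IsGreen ((E : ℂ) + (t : ℂ) * Complex.I) ω (G ω)) →
    Integrable (fun ω => ‖((Real.sqrt d * t : ℝ) : ℂ) *
        dens (G ω) (fun i => c * Real.sqrt (t / (3 * Real.sqrt d)) * P i) -
      ((gau d E / (1 + (∑ i, P i ^ 2) / (2 * gau d E)) : ℝ) : ℂ)‖ ^ 2)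
      (Measure.infinitePi fun _ : Fin d → ℤ => unif c) ∧
    ∫ ω, ‖((Real.sqrt d * t : ℝ) : ℂ) *
        dens (G ω) (fun i => c * Real.sqrt (t / (3 * Real.sqrt d)) * P i) -
      ((gau d E / (1 + (∑ i, P i ^ 2) / (2 * gau d E)) : ℝ) : ℂ)‖ ^ 2
      ∂(Measure.infinitePi fun _ : Fin d → ℤ => unif c) ≤ ε

/-- The Green function exists and is unique, and there is quantum diffusion in high dimension: for
all `K ≥ 1`, `A`, `M` and `ε` there are `w > 0` and `d₀` such that for `d ≥ d₀`, `1 / K ≤ c ≤ K`,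
`|E - 2 d| ≤ A √d` and `d^(-1/2-1/200) ≤ t ≤ w / √d` the statement `Diffusive d c E t M ε` holds. -/
theorem result :
    (∀ (d : ℕ) (z : ℂ) (ω : (Fin d → ℤ) → ℝ), 0 < z.im → ∃! u, IsGreen z ω u) ∧
    ∀ K A M ε : ℝ, 1 ≤ K → 0 ≤ M → 0 < ε → ∃ w : ℝ, 0 < w ∧ ∃ d₀ : ℕ, ∀ d : ℕ, d₀ ≤ d →
      ∀ c E t : ℝ, 1 / K ≤ c → c ≤ K → |E - 2 * d| ≤ A * Real.sqrt d →
      (d : ℝ) ^ (-(1 / 2 + 1 / 200 : ℝ)) ≤ t → t ≤ w / Real.sqrt d →
      Diffusive d c E t M ε := by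
  refine ⟨fun d z ω hz => Run7.h108.HDF.green_eu z ω hz, fun K A M ε hK hM hε => ?_⟩
  obtain ⟨w, hw, d0, H⟩ := Run7.h108.HDU.diffU Run7.h442.HD.qd K A M ε hK hM hε
  refine ⟨w, hw, d0, fun d hd c E t hc1 hc2 hE ht1 ht2 P hP G hG => ?_⟩
  have hc : 0 ≤ c := le_trans (by positivity) hc1
  have h := H d hd c E t hc1 hc2 hE ht1 ht2 P hP G (fun ω => by
    have h1 := hG ω
    rw [add_zero]
    exact h1)
  have hs : Real.sqrt (c ^ 2 / 3 * t / Real.sqrt d) = c * Real.sqrt (t / (3 * Real.sqrt d)) := by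
    rw [show c ^ 2 / 3 * t / Real.sqrt d = c ^ 2 * (t / (3 * Real.sqrt d)) by
      rw [mul_comm (3 : ℝ), ← div_div]
      ring]
    rw [Real.sqrt_mul (by positivity), Real.sqrt_sq hc]
  rw [hs] at h
  exact h

end

end Pool.Agent.Results.MP_562b47_mp.QuantumDiffusionHighDim
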